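import Mathlib

/-!
The Legendre–Fenchel fixed point equation `f(x) = τ f*(Ex + c) + ⟨w, x⟩ + β` has a solution
different from the quadratic one, unless `τ = 1` and `c = w`.
-/

namespace Pool.Agent.Results.MP_02ff8d_an.NonUnique

/-! ### The equation -/

section defs

variable {X : Type*} [NormedAddCommGroup X] [InnerProductSpace ℝ X]

/-- The Legendre–Fenchel conjugate. -/
noncomputable def conj (f : X → EReal) (y : X) : EReal :=
  ⨆ x : X, ((inner ℝ y x : ℝ) : EReal) - f x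

/-- `f` is a solution of the equation `(*)`. -/
def IsSolution (τ : ℝ) (E : X ≃L[ℝ] X) (c w : X) (β : ℝ) (f : X → EReal) : Prop :=
  ∀ x, f x = (τ : EReal) * conj f (E x + c) + ((inner ℝ w x : ℝ) : EReal) + (β : EReal)

/-- The quadratic solution of the problem file. -/
noncomputable def f0 (τ : ℝ) (E : X ≃L[ℝ] X) (c w : X) (β : ℝ) (x : X) : EReal :=
  ((1 / 2 * inner ℝ (√τ • E x) x + inner ℝ ((1 + √τ)⁻¹ • (w + √τ • c)) x +
    (β * (1 + √τ) ^ 2 + 1 / 2 * √τ * inner ℝ (c - w) (E.symm (c - w))) /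
      ((1 + √τ) ^ 2 * (τ + 1)) : ℝ) : EReal)

end defs

/-! ### One-dimensional functions -/

/-- `φ` and `ψ` are conjugate to each other, and the supremum is always attained. -/
def Young (φ ψ : ℝ → ℝ) : Prop :=
  (∀ s t, s * t ≤ φ t + ψ s) ∧ ∀ s, ∃ t, s * t = φ t + ψ s

lemma young_quadratic {r d : ℝ} (hr : 0 < r) :
    Young (fun t => r / 2 * t ^ 2 + d) (fun s => 1 / (2 * r) * s ^ 2 - d) := by
  constructor
  · intro s t
    have h : 0 ≤ 1 / (2 * r) * (s - r * t) ^ 2 := by positivity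
    have h2 : 1 / (2 * r) * (s - r * t) ^ 2 =
        r / 2 * t ^ 2 + d + (1 / (2 * r) * s ^ 2 - d) - s * t := by
      field_simp
      ring
    simp only
    linarith
  · intro s
    refine ⟨s / r, ?_⟩
    simp only
    field_simp
    ring

/-- the lines defining the step potential -/
noncomputable def line (τ : ℝ) (k : ℤ) (t : ℝ) : ℝ := τ ^ k * |t| - τ ^ (2 * k) / (τ + 1)

lemma line_le {τ : ℝ} (hτ : 0 < τ) (k : ℤ) (t : ℝ) : line τ k t ≤ (τ + 1) * t ^ 2 / 4 := by
  unfold line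
  have h1 : τ ^ (2 * k) = (τ ^ k) ^ 2 := by
    rw [mul_comm, zpow_mul]
    norm_cast
  rw [h1]
  have h2 : 0 ≤ (τ ^ k - (τ + 1) * |t| / 2) ^ 2 / (τ + 1) := by positivity
  have h3 : (τ ^ k - (τ + 1) * |t| / 2) ^ 2 / (τ + 1) =
      (τ + 1) * t ^ 2 / 4 - (τ ^ k * |t| - (τ ^ k) ^ 2 / (τ + 1)) := by
    rw [← sq_abs t]
    field_simp
    ring
  linarith

/-- The step potential. -/
noncomputable def pot (τ : ℝ) (t : ℝ) : ℝ := ⨆ k : ℤ, line τ k t

lemma le_pot {τ : ℝ} (hτ : 0 < τ) (k : ℤ) (t : ℝ) : line τ k t ≤ pot τ t := by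
  apply le_ciSup (f := fun k => line τ k t) _ k
  refine ⟨(τ + 1) * t ^ 2 / 4, ?_⟩
  rintro _ ⟨j, rfl⟩
  exact line_le hτ j t

lemma pot_nonneg {τ : ℝ} (hτ : 1 < τ) (t : ℝ) : 0 ≤ pot τ t := by
  by_contra hcon
  push Not at hcon
  have hτ0 : 0 < τ := by linarith
  obtain ⟨n, hn⟩ := exists_pow_lt_of_lt_one (show 0 < -pot τ t by linarith)
    (show τ⁻¹ < 1 from inv_lt_one_of_one_lt₀ hτ)
  have h1 := le_pot hτ0 (-(n : ℤ)) t
  unfold line at h1
  have h2 : 0 ≤ τ ^ (-(n : ℤ)) * |t| := by positivity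
  have h3 : τ ^ (2 * -(n : ℤ)) / (τ + 1) ≤ (τ⁻¹) ^ n := by
    have e1 : τ ^ (2 * -(n : ℤ)) = (τ⁻¹) ^ n * (τ⁻¹) ^ n := by
      rw [← pow_add, inv_pow, ← zpow_natCast, ← zpow_neg]
      congr 1
      push_cast
      ring
    have e2 : (τ⁻¹) ^ n ≤ 1 := pow_le_one₀ (by positivity) (inv_le_one_of_one_le₀ hτ.le)
    have e3 : 0 < (τ⁻¹) ^ n := by positivity
    rw [e1, div_le_iff₀ (by linarith)]
    nlinarith
  linarith

lemma exists_loc {τ : ℝ} (hτ : 1 < τ) {t : ℝ} (ht : t ≠ 0) :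
    ∃ k : ℤ, τ ^ k ≤ |t| ∧ |t| ≤ τ ^ (k + 1) := by
  obtain ⟨k, hk1, hk2⟩ := exists_mem_Ico_zpow (abs_pos.2 ht) hτ
  exact ⟨k, hk1, hk2.le⟩

lemma zp1 {τ : ℝ} (hτ : 0 < τ) (k : ℤ) : τ ^ (k + 1) = τ * τ ^ k := by
  rw [zpow_add₀ hτ.ne', zpow_one, mul_comm]

lemma zp2 {τ : ℝ} (k : ℤ) : τ ^ (2 * k) = (τ ^ k) ^ 2 := by
  rw [mul_comm, zpow_mul]
  norm_cast

lemma pot_eq {τ : ℝ} (hτ : 1 < τ) {t : ℝ} {k : ℤ} (h1 : τ ^ k ≤ |t|) (h2 : |t| ≤ τ ^ (k + 1)) :
    pot τ t = line τ (k + 1) t := by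
  have hτ0 : 0 < τ := by linarith
  apply le_antisymm _ (le_pot hτ0 _ _)
  apply ciSup_le
  intro j
  have hkey : 0 ≤ (τ ^ (k + 1) - τ ^ j) * ((τ + 1) * |t| - (τ ^ (k + 1) + τ ^ j)) := by
    have hk := zp1 hτ0 k
    have hpk : 0 < τ ^ k := by positivity
    rcases lt_trichotomy j (k + 1) with hj | hj | hj
    · have e1 : τ ^ j ≤ τ ^ k := zpow_le_zpow_right₀ hτ.le (by omega)
      apply mul_nonneg
      · nlinarith
      · nlinarith
    · rw [hj]
      simp
    · have e1 : τ ^ (k + 1 + 1) ≤ τ ^ j := zpow_le_zpow_right₀ hτ.le (by omega)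
      have e2 := zp1 hτ0 (k + 1)
      apply mul_nonneg_of_nonpos_of_nonpos
      · nlinarith
      · nlinarith
  have hkey2 : line τ (k + 1) t - line τ j t =
      (τ ^ (k + 1) - τ ^ j) * ((τ + 1) * |t| - (τ ^ (k + 1) + τ ^ j)) / (τ + 1) := by
    unfold line
    rw [zp2, zp2]
    field_simp
    ring
  have : 0 ≤ line τ (k + 1) t - line τ j t := by
    rw [hkey2]
    positivity
  linarith

lemma pot_zpow {τ : ℝ} (hτ : 1 < τ) (k : ℤ) : pot τ (τ ^ k) = τ * (τ ^ k) ^ 2 / (τ + 1) := by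
  have hτ0 : 0 < τ := by linarith
  have habs : |τ ^ k| = τ ^ k := abs_of_pos (by positivity)
  rw [pot_eq hτ (k := k) habs.ge]
  · unfold line
    rw [zp2, habs, zp1 hτ0]
    field_simp
    ring
  · rw [habs]
    exact zpow_le_zpow_right₀ hτ.le (by omega)

lemma pot_abs (τ t : ℝ) : pot τ |t| = pot τ t := by
  unfold pot line
  simp only [abs_abs]

lemma pot_neg (τ t : ℝ) : pot τ (-t) = pot τ t := by
  unfold pot line
  simp only [abs_neg]

lemma pot_zero {τ : ℝ} (hτ : 1 < τ) : pot τ 0 = 0 := by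
  apply le_antisymm _ (pot_nonneg hτ 0)
  apply ciSup_le
  intro k
  have := line_le (by linarith : 0 < τ) k 0
  simpa using this

lemma pot_young {τ : ℝ} (hτ : 1 < τ) (s t : ℝ) : s * t ≤ pot τ t + pot τ s / τ := by
  have hτ0 : 0 < τ := by linarith
  rcases eq_or_ne t 0 with rfl | ht
  · rw [pot_zero hτ, mul_zero, zero_add]
    exact div_nonneg (pot_nonneg hτ s) hτ0.le
  · obtain ⟨k, h1, h2⟩ := exists_loc hτ ht
    have e1 : s * t ≤ |s| * |t| := by
      rw [← abs_mul]
      exact le_abs_self _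
    have e2 := le_pot hτ0 (k + 1) t
    have e3 := le_pot hτ0 (k + 1) s
    have e4 := le_pot hτ0 (k + 1 + 1) s
    unfold line at e2 e3 e4
    rw [zp2] at e2 e3 e4
    rw [zp1 hτ0 k] at *
    rw [zp1 hτ0 (k + 1), zp1 hτ0 k] at e4
    set a := τ ^ k with ha
    have hapos : 0 < a := by positivity
    have f3 : a * |s| - τ * a ^ 2 / (τ + 1) ≤ pot τ s / τ := by
      rw [le_div_iff₀ hτ0]
      calc (a * |s| - τ * a ^ 2 / (τ + 1)) * τ = τ * a * |s| - (τ * a) ^ 2 / (τ + 1) := by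
            field_simp
        _ ≤ _ := e3
    have f4 : τ * a * |s| - τ * (τ * a) ^ 2 / (τ + 1) ≤ pot τ s / τ := by
      rw [le_div_iff₀ hτ0]
      calc (τ * a * |s| - τ * (τ * a) ^ 2 / (τ + 1)) * τ
          = τ * (τ * a) * |s| - (τ * (τ * a)) ^ 2 / (τ + 1) := by
            field_simp
        _ ≤ _ := e4
    -- the function is affine on the interval `[a, τ a]`
    have f5 : |s| * |t| - (τ * a * |t| - (τ * a) ^ 2 / (τ + 1)) ≤ pot τ s / τ := by
      rcases le_total |s| (τ * a) with hs | hs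
      · have g1 : |s| * |t| - τ * a * |t| ≤ |s| * a - τ * a * a := by nlinarith
        have g2 : a * |s| - τ * a ^ 2 / (τ + 1) =
            |s| * a - τ * a * a + (τ * a) ^ 2 / (τ + 1) := by
          field_simp
          ring
        linarith
      · have g1 : |s| * |t| - τ * a * |t| ≤ |s| * (τ * a) - τ * a * (τ * a) := by nlinarith
        have g2 : τ * a * |s| - τ * (τ * a) ^ 2 / (τ + 1) =
            |s| * (τ * a) - τ * a * (τ * a) + (τ * a) ^ 2 / (τ + 1) := by
          field_simp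
          ring
        linarith
    linarith

lemma pot_attained {τ : ℝ} (hτ : 1 < τ) (s : ℝ) : ∃ t, s * t = pot τ t + pot τ s / τ := by
  have hτ0 : 0 < τ := by linarith
  have main : ∀ s : ℝ, 0 < s → ∃ t, s * t = pot τ t + pot τ s / τ := by
    intro s hs
    obtain ⟨k, h1, h2⟩ := exists_loc hτ hs.ne'
    refine ⟨τ ^ k, ?_⟩
    rw [pot_zpow hτ, pot_eq hτ h1 h2]
    unfold line
    rw [zp2, zp1 hτ0, abs_of_pos hs]
    field_simp
    ring
  rcases lt_trichotomy s 0 with hs | rfl | hs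
  · obtain ⟨t, ht⟩ := main (-s) (by linarith)
    refine ⟨-t, ?_⟩
    rw [pot_neg] at ht
    rw [pot_neg]
    linarith
  · exact ⟨0, by rw [pot_zero hτ]; simp⟩
  · exact main s hs

lemma pot_attained' {τ : ℝ} (hτ : 1 < τ) (t : ℝ) : ∃ s, s * t = pot τ t + pot τ s / τ := by
  have hτ0 : 0 < τ := by linarith
  have main : ∀ t : ℝ, 0 < t → ∃ s, s * t = pot τ t + pot τ s / τ := by
    intro t ht
    obtain ⟨k, h1, h2⟩ := exists_loc hτ ht.ne'
    refine ⟨τ ^ (k + 1), ?_⟩
    rw [pot_zpow hτ, pot_eq hτ h1 h2]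
    unfold line
    rw [zp2, zp1 hτ0, abs_of_pos ht]
    field_simp
    ring
  rcases lt_trichotomy t 0 with ht | rfl | ht
  · obtain ⟨s, hs⟩ := main (-t) (by linarith)
    refine ⟨-s, ?_⟩
    rw [pot_neg] at hs
    rw [pot_neg]
    linarith
  · exact ⟨0, by rw [pot_zero hτ]; simp⟩
  · exact main t ht

/-- For `τ ≠ 1` there is a non-quadratic solution of `φ = τ φ*` on the line. -/
lemma exists_stepA {τ : ℝ} (hτ : 0 < τ) (h1 : τ ≠ 1) :
    ∃ φ : ℝ → ℝ, Young φ (fun s => φ s / τ) ∧ φ 1 ≠ √τ / 2 := by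
  have aux : ∀ σ : ℝ, 0 < σ → σ ≠ 1 → σ / (σ + 1) ≠ √σ / 2 := by
    intro σ hσ hσ1 heq
    have e1 : √σ ^ 2 = σ := Real.sq_sqrt hσ.le
    have e2 : 0 < √σ := Real.sqrt_pos.2 hσ
    rw [div_eq_div_iff (by positivity) (by norm_num)] at heq
    have e3 : √σ * (√σ - 1) ^ 2 = 0 := by
      have : √σ * (√σ - 1) ^ 2 = √σ * (√σ ^ 2 + 1) - 2 * √σ ^ 2 := by ring
      rw [this, e1]
      linarith
    rcases mul_eq_zero.1 e3 with h | h
    · exact e2.ne' h
    · have : √σ = 1 := by
        have := pow_eq_zero_iff (two_ne_zero) |>.1 h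
        linarith
      rw [this] at e1
      exact hσ1 (by linarith)
  rcases lt_or_gt_of_ne h1 with hlt | hgt
  · -- `τ < 1`
    have hinv : 1 < τ⁻¹ := (one_lt_inv₀ hτ).2 hlt
    refine ⟨fun t => τ * pot τ⁻¹ t, ⟨fun s t => ?_, fun s => ?_⟩, ?_⟩
    · have := pot_young hinv t s
      simp only
      rw [div_inv_eq_mul] at this
      rw [mul_div_cancel_left₀ _ hτ.ne']
      linarith
    · obtain ⟨t, ht⟩ := pot_attained' hinv s
      refine ⟨t, ?_⟩
      simp only
      rw [div_inv_eq_mul] at ht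
      rw [mul_div_cancel_left₀ _ hτ.ne']
      linarith
    · have h0 := pot_zpow hinv 0
      simp only [zpow_zero, one_pow, mul_one] at h0
      simp only
      rw [h0]
      have : τ * (τ⁻¹ / (τ⁻¹ + 1)) = τ / (τ + 1) := by
        field_simp
        ring
      rw [this]
      exact aux τ hτ h1
  · refine ⟨pot τ, ⟨fun s t => pot_young hgt s t, fun s => pot_attained hgt s⟩, ?_⟩
    have h0 := pot_zpow hgt 0
    simp only [zpow_zero, one_pow, mul_one] at h0
    rw [h0]
    exact aux τ hτ h1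

/-- lines for the second case -/
noncomputable def lineB (c : ℝ) (k : ℤ) (t : ℝ) : ℝ := k * c * t - c ^ 2 * (k * (k - 1)) / 2

/-- potential for the second case -/
noncomputable def potB (c : ℝ) (t : ℝ) : ℝ := ⨆ k : ℤ, lineB c k t

lemma le_potB (c : ℝ) (k : ℤ) (t : ℝ) : lineB c k t ≤ potB c t := by
  apply le_ciSup (f := fun k => lineB c k t) _ k
  refine ⟨(t + c / 2) ^ 2 / 2, ?_⟩
  rintro _ ⟨j, rfl⟩
  simp only [lineB]
  nlinarith [sq_nonneg (j * c - (t + c / 2))]

lemma int_consec (m : ℤ) : (0 : ℝ) ≤ (m : ℝ) * (m + 1) := by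
  have : (0 : ℤ) ≤ m * (m + 1) := by
    rcases le_or_gt 0 m with h | h
    · positivity
    · have h2 : m + 1 ≤ 0 := by omega
      nlinarith
  exact_mod_cast this

lemma potB_eq {c : ℝ} (hc : 0 < c) {t : ℝ} {k : ℤ} (h1 : (k - 1) * c ≤ t) (h2 : t ≤ k * c) :
    potB c t = lineB c k t := by
  apply le_antisymm _ (le_potB _ _ _)
  apply ciSup_le
  intro j
  have hkey2 : lineB c k t - lineB c j t = c * ((k - j) * (t - c * (k + j - 1) / 2)) := by
    unfold lineB
    ring
  have hm := int_consec (k - j)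
  have hm' := int_consec (k - j - 1)
  push_cast at hm hm'
  have hkey : 0 ≤ ((k : ℝ) - j) * (t - c * (k + j - 1) / 2) := by
    rcases le_total (0 : ℝ) ((k : ℝ) - j) with h | h
    · nlinarith
    · nlinarith
  have : 0 ≤ lineB c k t - lineB c j t := by
    rw [hkey2]
    positivity
  linarith

lemma exists_locB {c : ℝ} (hc : 0 < c) (t : ℝ) : ∃ k : ℤ, (k - 1) * c ≤ t ∧ t ≤ k * c := by
  refine ⟨⌈t / c⌉, ?_, ?_⟩
  · have := Int.ceil_lt_add_one (t / c)
    have h2 : (⌈t / c⌉ : ℝ) - 1 < t / c := by linarith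
    exact ((lt_div_iff₀ hc).1 h2).le
  · exact (div_le_iff₀ hc).1 (Int.le_ceil _)

/-- For every `c > 0` the equation `φ(t) = φ*(t + c)` has a non-quadratic solution. -/
lemma exists_stepB {c : ℝ} (hc : 0 < c) :
    ∃ φ : ℝ → ℝ, Young φ (fun s => φ (s - c)) ∧ φ 0 = 0 := by
  refine ⟨potB c, ⟨fun s t => ?_, fun s => ?_⟩, ?_⟩
  · obtain ⟨k, h1, h2⟩ := exists_locB hc t
    have e1 := le_potB c k t
    have e2 := le_potB c k (s - c)
    have e3 := le_potB c (k - 1) (s - c)
    unfold lineB at e1 e2 e3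
    push_cast at e3
    simp only
    rcases le_total s (k * c) with hs | hs
    · have : (s - k * c) * t ≤ (s - k * c) * ((k - 1) * c) :=
        mul_le_mul_of_nonpos_left h1 (by linarith)
      nlinarith
    · have : (s - k * c) * t ≤ (s - k * c) * (k * c) :=
        mul_le_mul_of_nonneg_left h2 (by linarith)
      nlinarith
  · obtain ⟨k, h1, h2⟩ := exists_locB hc (s - c)
    refine ⟨k * c, ?_⟩
    simp only
    rw [potB_eq hc h1 h2, potB_eq hc (t := k * c) (k := k) (by nlinarith) le_rfl]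
    unfold lineB
    ring
  · rw [potB_eq hc (t := 0) (k := 0) (by simp; linarith) (by simp)]
    simp [lineB]

/-! ### The general case -/

section general

variable {X : Type*} [NormedAddCommGroup X] [InnerProductSpace ℝ X]

lemma conj_eq {F G : X → ℝ} (h1 : ∀ x y, inner ℝ y x ≤ F x + G y)
    (h2 : ∀ y, ∃ x, inner ℝ y x = F x + G y) (y : X) :
    conj (fun x => (F x : EReal)) y = (G y : EReal) := by
  unfold conj
  apply le_antisymm
  · apply iSup_le
    intro x
    rw [← EReal.coe_sub, EReal.coe_le_coe_iff]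
    linarith [h1 x y]
  · obtain ⟨x, hx⟩ := h2 y
    apply le_iSup_of_le x
    rw [← EReal.coe_sub, EReal.coe_le_coe_iff]
    linarith

lemma sol_of {τ : ℝ} {E : X ≃L[ℝ] X} {c w : X} {β : ℝ} {F G : X → ℝ}
    (h1 : ∀ x y, inner ℝ y x ≤ F x + G y)
    (h2 : ∀ y, ∃ x, inner ℝ y x = F x + G y)
    (h3 : ∀ x, F x = τ * G (E x + c) + inner ℝ w x + β) :
    IsSolution τ E c w β (fun x => (F x : EReal)) := by
  intro x
  show (F x : EReal) = _
  rw [conj_eq h1 h2, h3 x]
  push_cast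
  rfl

/-- The candidate for the solution. -/
noncomputable def FF (E : X ≃L[ℝ] X) (u x0 l : X) (γ r : ℝ) (φ : ℝ → ℝ) (x : X) : ℝ :=
  φ (inner ℝ (E u) (x - x0)) +
    r / 2 * (inner ℝ (E (x - x0)) (x - x0) - (inner ℝ (E u) (x - x0)) ^ 2) + inner ℝ l x + γ

/-- The candidate for its conjugate. -/
noncomputable def GG (E : X ≃L[ℝ] X) (u x0 l : X) (γ r : ℝ) (ψ : ℝ → ℝ) (y : X) : ℝ :=
  ψ (inner ℝ (E u) (E.symm (y - l))) +
    1 / (2 * r) * (inner ℝ (E (E.symm (y - l))) (E.symm (y - l)) -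
      (inner ℝ (E u) (E.symm (y - l))) ^ 2) + inner ℝ (y - l) x0 - γ

variable {E : X ≃L[ℝ] X}

lemma form_nonneg (hsymm : ∀ x y, inner ℝ (E x) y = inner ℝ x (E y))
    (hpos : ∀ x, x ≠ 0 → 0 < inner ℝ (E x) x) {u : X} (hu : inner ℝ (E u) u = (1 : ℝ)) (v : X) :
    0 ≤ inner ℝ (E v) v - (inner ℝ (E u) v) ^ 2 := by
  have hnn : ∀ x : X, 0 ≤ inner ℝ (E x) x := by
    intro x
    rcases eq_or_ne x 0 with rfl | h
    · simp
    · exact (hpos x h).le
  have h := hnn (v - (inner ℝ (E u) v : ℝ) • u)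
  have hvu : inner ℝ (E v) u = inner ℝ (E u) v := by
    rw [hsymm, real_inner_comm]
  simp only [map_sub, map_smul, inner_sub_left, inner_sub_right, inner_smul_left,
    inner_smul_right, hu, hvu, conj_trivial] at h
  nlinarith

lemma young_FG (hsymm : ∀ x y, inner ℝ (E x) y = inner ℝ x (E y))
    (hpos : ∀ x, x ≠ 0 → 0 < inner ℝ (E x) x) {u : X} (hu : inner ℝ (E u) u = (1 : ℝ))
    {r : ℝ} (hr : 0 < r) {φ ψ : ℝ → ℝ} (hY : Young φ ψ) (x0 l : X) (γ : ℝ) (x y : X) :
    inner ℝ y x ≤ FF E u x0 l γ r φ x + GG E u x0 l γ r ψ y := by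
  obtain ⟨a, rfl⟩ : ∃ a, x = a + x0 := ⟨x - x0, by simp⟩
  obtain ⟨b, rfl⟩ : ∃ b, y = E b + l := ⟨E.symm (y - l), by simp⟩
  unfold FF GG
  simp only [add_sub_cancel_right, ContinuousLinearEquiv.symm_apply_apply]
  have h1 := hY.1 (inner ℝ (E u) b) (inner ℝ (E u) a)
  have h2 := form_nonneg hsymm hpos hu (r • a - b)
  have hba : inner ℝ (E a) b = inner ℝ (E b) a := by
    rw [hsymm, real_inner_comm]
  simp only [map_sub, map_smul, inner_sub_left, inner_sub_right, inner_smul_left,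
    inner_smul_right, conj_trivial, hba] at h2
  simp only [inner_add_left, inner_add_right]
  set p : ℝ := inner ℝ (E u) a
  set q : ℝ := inner ℝ (E u) b
  set A : ℝ := inner ℝ (E a) a
  set B : ℝ := inner ℝ (E b) b
  set C : ℝ := inner ℝ (E b) a
  have h3 : 0 ≤ 1 / (2 * r) * (r * (r * A) - r * C - (r * C - B) - (r * p - q) ^ 2) := by
    apply mul_nonneg (by positivity)
    refine le_of_le_of_eq h2 ?_
    ring
  have h4 : 1 / (2 * r) * (r * (r * A) - r * C - (r * C - B) - (r * p - q) ^ 2) =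
      r / 2 * (A - p ^ 2) + 1 / (2 * r) * (B - q ^ 2) - (C - q * p) := by
    field_simp
    ring
  linarith

lemma young_attained (hsymm : ∀ x y, inner ℝ (E x) y = inner ℝ x (E y))
    {u : X} (hu : inner ℝ (E u) u = (1 : ℝ))
    {r : ℝ} (hr : 0 < r) {φ ψ : ℝ → ℝ} (hY : Young φ ψ) (x0 l : X) (γ : ℝ) (y : X) :
    ∃ x, inner ℝ y x = FF E u x0 l γ r φ x + GG E u x0 l γ r ψ y := by
  obtain ⟨b, rfl⟩ : ∃ b, y = E b + l := ⟨E.symm (y - l), by simp⟩
  obtain ⟨t, ht⟩ := hY.2 (inner ℝ (E u) b)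
  have hbu : inner ℝ (E b) u = inner ℝ (E u) b := by
    rw [hsymm, real_inner_comm]
  refine ⟨(t • u + r⁻¹ • (b - (inner ℝ (E u) b : ℝ) • u)) + x0, ?_⟩
  unfold FF GG
  simp only [add_sub_cancel_right, ContinuousLinearEquiv.symm_apply_apply, map_add, map_sub,
    map_smul, inner_add_left, inner_add_right, inner_sub_left, inner_sub_right, inner_smul_left,
    inner_smul_right, conj_trivial, hu, hbu]
  set q : ℝ := inner ℝ (E u) b
  have e1 : t * 1 + r⁻¹ * (q - q * 1) = t := by ring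
  rw [e1]
  have e2 : q * t = φ t + ψ q := ht
  have e3 : φ t = q * t - ψ q := by linarith
  rw [e3]
  clear_value q
  generalize inner ℝ (E b) b = B
  generalize inner ℝ l u = L1
  generalize inner ℝ l b = L2
  generalize inner ℝ (E b) x0 = L3
  generalize inner ℝ l x0 = L4
  generalize ψ q = P
  field_simp
  ring

end general

/-- Uniqueness fails as soon as `τ ≠ 1` or `c ≠ w`. -/
theorem result {X : Type*} [NormedAddCommGroup X] [InnerProductSpace ℝ X] [CompleteSpace X]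
    [Nontrivial X] (E : X ≃L[ℝ] X) (hsymm : ∀ x y, inner ℝ (E x) y = inner ℝ x (E y))
    (hpos : ∀ x, x ≠ 0 → 0 < inner ℝ (E x) x) (τ : ℝ) (hτ : 0 < τ) (c w : X) (β : ℝ)
    (h : ¬ (τ = 1 ∧ c = w)) :
    ∃ f : X → EReal, IsSolution τ E c w β f ∧ f ≠ f0 τ E c w β := by
  -- it is enough to find two different solutions
  suffices H : ∃ f g : X → EReal, IsSolution τ E c w β f ∧ IsSolution τ E c w β g ∧ f ≠ g by
    obtain ⟨f, g, hf, hg, hfg⟩ := H
    by_cases hff : f = f0 τ E c w β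
    · exact ⟨g, hg, fun hgg => hfg (hff.trans hgg.symm)⟩
    · exact ⟨f, hf, hff⟩
  -- normalised vectors
  have hnorm : ∀ v : X, v ≠ 0 → ∃ (u : X) (σ : ℝ), 0 < σ ∧ inner ℝ (E u) u = (1 : ℝ) ∧
      v = σ • u := by
    intro v hv
    have hs : 0 < √(inner ℝ (E v) v) := Real.sqrt_pos.2 (hpos v hv)
    refine ⟨(√(inner ℝ (E v) v))⁻¹ • v, √(inner ℝ (E v) v), hs, ?_, ?_⟩
    · rw [map_smul, inner_smul_left, inner_smul_right, conj_trivial, ← mul_assoc, ← mul_inv,
        Real.mul_self_sqrt (hpos v hv).le]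
      exact inv_mul_cancel₀ (hpos v hv).ne'
    · rw [smul_smul, mul_inv_cancel₀ hs.ne', one_smul]
  have hsq : √τ ^ 2 = τ := Real.sq_sqrt hτ.le
  have hsp : 0 < √τ := Real.sqrt_pos.2 hτ
  by_cases h1 : τ = 1
  · -- second special case
    have hcw : c ≠ w := fun hcw => h ⟨h1, hcw⟩
    have hv : E.symm (c - w) ≠ 0 := by
      intro h0
      apply hcw
      have : c - w = 0 := by
        have := congrArg E h0
        simpa using this
      exact sub_eq_zero.1 this
    obtain ⟨u, σ, hσ, hu, hvu⟩ := hnorm _ hv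
    have hcw2 : c - w = σ • E u := by
      rw [← map_smul, ← hvu]
      simp
    have hsol : ∀ φ : ℝ → ℝ, Young φ (fun s => φ (s - σ)) →
        IsSolution τ E c w β (fun x => (FF E u 0 w (β / 2) 1 φ x : EReal)) := by
      intro φ hφ
      apply sol_of (G := GG E u 0 w (β / 2) 1 (fun s => φ (s - σ)))
      · exact young_FG hsymm hpos hu one_pos hφ _ _ _
      · exact young_attained hsymm hu one_pos hφ _ _ _
      · intro x
        have e1 : E.symm (E x + c - w) = x + σ • u := by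
          rw [add_sub_assoc, map_add, ContinuousLinearEquiv.symm_apply_apply, hvu]
        have hux : inner ℝ (E x) u = inner ℝ (E u) x := by
          rw [hsymm, real_inner_comm]
        unfold FF GG
        rw [e1, h1]
        simp only [sub_zero, map_add, map_smul, inner_add_left, inner_add_right, inner_smul_left,
          inner_smul_right, conj_trivial, hu, hux, inner_zero_right]
        rw [show inner ℝ (E u) x + σ * 1 - σ = inner ℝ (E u) x by ring]
        ring
    obtain ⟨φ, hφ, hφ0⟩ := exists_stepB hσ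
    refine ⟨_, _, hsol φ hφ, hsol (fun t => t ^ 2 / 2 + σ * t / 2 + σ ^ 2 / 16) ?_, ?_⟩
    · constructor
      · intro s t
        simp only
        nlinarith [sq_nonneg (t - (s - σ / 2))]
      · intro s
        refine ⟨s - σ / 2, ?_⟩
        simp only
        ring
    · intro heq
      have := congrFun heq 0
      simp only [FF, sub_zero, inner_zero_right, map_zero, hφ0] at this
      rw [EReal.coe_eq_coe_iff] at this
      have h3 : 0 < σ ^ 2 := by positivity
      linarith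
  · -- first special case
    obtain ⟨v, hv⟩ := exists_ne (0 : X)
    obtain ⟨u, σ, hσ, hu, -⟩ := hnorm v hv
    set x0 : X := (τ - 1)⁻¹ • E.symm (c - w) with hx0
    have hτ1 : τ - 1 ≠ 0 := sub_ne_zero.2 h1
    have hEx0 : (τ - 1) • E x0 = c - w := by
      rw [hx0, map_smul, smul_smul, mul_inv_cancel₀ hτ1, one_smul]
      simp
    set γ : ℝ := (β - τ * inner ℝ (E x0) x0) / (1 + τ) with hγ
    have hγ2 : γ * (1 + τ) = β - τ * inner ℝ (E x0) x0 := by
      rw [hγ]
      field_simp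
    have hsol : ∀ φ : ℝ → ℝ, Young φ (fun s => φ s / τ) →
        IsSolution τ E c w β (fun x => (FF E u x0 (c + E x0) γ √τ φ x : EReal)) := by
      intro φ hφ
      apply sol_of (G := GG E u x0 (c + E x0) γ √τ (fun s => φ s / τ))
      · exact young_FG hsymm hpos hu hsp hφ _ _ _
      · exact young_attained hsymm hu hsp hφ _ _ _
      · intro x
        have e1 : E x + c - (c + E x0) = E (x - x0) := by
          rw [map_sub]
          abel
        have hw : w = c + E x0 - τ • E x0 := by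
          have : (τ - 1) • E x0 = τ • E x0 - E x0 := by rw [sub_smul, one_smul]
          rw [this] at hEx0
          rw [← sub_eq_zero] at hEx0 ⊢
          rw [← hEx0]
          abel
        have hxx : inner ℝ (E x) x0 = inner ℝ (E x0) x := by
          rw [hsymm, real_inner_comm]
        have hwx : inner ℝ w x = inner ℝ c x + inner ℝ (E x0) x - τ * inner ℝ (E x0) x := by
          rw [hw]
          simp only [inner_add_left, inner_sub_left, inner_smul_left, conj_trivial]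
        unfold FF GG
        rw [e1, ContinuousLinearEquiv.symm_apply_apply, hwx]
        have e2 : τ * (φ (inner ℝ (E u) (x - x0)) / τ) = φ (inner ℝ (E u) (x - x0)) := by
          field_simp
        have e3 : τ * (1 / (2 * √τ)) = √τ / 2 := by
          nth_rewrite 1 [← hsq]
          field_simp
        have e4 : inner ℝ (E (x - x0)) x0 = inner ℝ (E x0) x - inner ℝ (E x0) x0 := by
          rw [map_sub, inner_sub_left, hxx]
        have e5 : (inner ℝ (c + E x0) x : ℝ) = inner ℝ c x + inner ℝ (E x0) x :=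
          inner_add_left _ _ _
        rw [e4, e5]
        set Q : ℝ := inner ℝ (E (x - x0)) (x - x0) - (inner ℝ (E u) (x - x0)) ^ 2
        have e6 : τ * (φ (inner ℝ (E u) (x - x0)) / τ + 1 / (2 * √τ) * Q +
            (inner ℝ (E x0) x - inner ℝ (E x0) x0) - γ) =
            φ (inner ℝ (E u) (x - x0)) + √τ / 2 * Q +
            τ * (inner ℝ (E x0) x - inner ℝ (E x0) x0) - τ * γ := by
          have e7 : τ * (φ (inner ℝ (E u) (x - x0)) / τ + 1 / (2 * √τ) * Q +
              (inner ℝ (E x0) x - inner ℝ (E x0) x0) - γ) =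
              τ * (φ (inner ℝ (E u) (x - x0)) / τ) + τ * (1 / (2 * √τ)) * Q +
              τ * (inner ℝ (E x0) x - inner ℝ (E x0) x0) - τ * γ := by ring
          rw [e7, e2, e3]
        rw [e6]
        linarith
    obtain ⟨φ, hφ, hφ1⟩ := exists_stepA hτ h1
    refine ⟨_, _, hsol φ hφ, hsol (fun t => √τ / 2 * t ^ 2 + 0) ?_, ?_⟩
    · have := young_quadratic (d := 0) hsp
      convert this using 2 with s
      rw [sub_zero, add_zero, div_eq_iff hτ.ne']
      have e3 : 1 / (2 * √τ) * τ = √τ / 2 := by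
        nth_rewrite 2 [← hsq]
        field_simp
      rw [mul_right_comm, e3]
    · intro heq
      have := congrFun heq (u + x0)
      simp only [FF, add_sub_cancel_right, hu] at this
      rw [EReal.coe_eq_coe_iff] at this
      apply hφ1
      linarith

end Pool.Agent.Results.MP_02ff8d_an.NonUnique
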